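import Pool.Agent.Helper47.FLG.Fun
import Pool.Agent.Helper38.RFn.FIN

/-!
# Packet FLG-EVM2 (MP_c98eff_gt, project of helper47): the theorem in even dimensions
-/

set_option autoImplicit false

namespace Pool.Agent.Helper47.FLG

open Finset Pool.Agent.Helper47.RFn Pool.Agent.Helper73.RFn

theorem evm2_gdiam_nonneg {n : ℕ} (G : MF n) : 0 ≤ gdiam G := by
  unfold gdiam
  apply Real.sSup_nonneg
  rintro r ⟨x, y, -, -, rfl⟩
  unfold gdist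
  apply Real.sInf_nonneg
  rintro r ⟨c, -, rfl⟩
  unfold glen
  exact intervalIntegral.integral_nonneg zero_le_one (fun t _ => Real.sqrt_nonneg _)

theorem evm2_mono {n : ℕ} {T s : ℝ} (h : s ≤ T) {A θ : ℝ → MF n}
    (hf : FFlow (Set.Ico 0 T) A θ) : FFlow (Set.Ico 0 s) A θ := by
  have hI : Set.Ico 0 s ⊆ Set.Ico 0 T := Set.Ico_subset_Ico_right h
  have h0 : ∀ {f : ℝ → EE n → ℝ}, SmFam (Set.Ico 0 T) f → SmFam (Set.Ico 0 s) f := fun hf =>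
    ⟨fun t ht => hf.sm t (hI ht), fun w => (hf.cont w).mono (Set.prod_mono hI subset_rfl)⟩
  have h1 : ∀ {f f' : ℝ → EE n → ℝ}, SmFam1 (Set.Ico 0 T) f f' → SmFam1 (Set.Ico 0 s) f f' :=
    fun hf => ⟨h0 hf.fam, h0 hf.fam', fun w x hx t ht => (hf.der w x hx t (hI ht)).mono hI⟩
  exact ⟨fun t ht => hf.inv t (hI ht), fun t ht => hf.nA t (hI ht), fun a i => h1 (hf.flA a i),
    fun i a => h1 (hf.flt i a)⟩

theorem evm2_qf_nonneg (hRP4 : Goal_RP4) {n : ℕ} (hn : 1 ≤ n) (z w : Fin n → ℂ) :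
    0 ≤ qf (Id4 n) z w := by
  obtain ⟨-, -, h⟩ := hRP4 n
  have h1 := h 0 1 ⟨by simp, by simp, by simp, by simp⟩ (by simp) z w
  have h2 : 0 ≤ (n : ℝ) ^ 4 * 1 * qf (Id4 n) z w := (abs_nonneg _).trans h1
  have h3 : 0 < (n : ℝ) ^ 4 * 1 := by
    have : (1 : ℝ) ≤ n := by exact_mod_cast hn
    positivity
  exact nonneg_of_mul_nonneg_right h2 h3

theorem evm2_nqf_mono (hRP4 : Goal_RP4) {n : ℕ} (hn : 1 ≤ n) {c c' : ℝ} (h : c ≤ c') {A θ : MF n}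
    {x : EE n} (hl : 0 ≤ lamf A θ x) (hN : NQF c A θ x) : NQF c' A θ x := by
  obtain ⟨ι, hι, z, w, h1, h2⟩ := hN
  refine ⟨ι, hι, z, w, h1, h2.trans ?_⟩
  exact mul_le_mul_of_nonneg_right (mul_le_mul_of_nonneg_right h hl)
    (evm2_qf_nonneg hRP4 hn z w)

/-- The last part of the proof for good flows which blow up. -/
theorem evm2_good (hLp : LpStmt) (hVlb : VlbStmt) (hDia : DiaStmt) (hHeat : HeatExStmt)
    (n : ℕ) (C σ : ℝ) (hn : 4 ≤ n) (hC : 1 ≤ C) (hσ : 0 < σ) (hσ1 : σ ≤ 1) :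
    ∃ ε : ℝ, 0 < ε ∧ ∀ (T l0 : ℝ) (A θ : ℝ → MF n), 0 < T → 0 < l0 →
      FFlow (Set.Ico 0 T) A θ → Good T l0 C σ A θ → Blow T A θ →
      ε * gdiam (gOf (θ 0)) ^ n ≤ gvol (gOf (θ 0)) := by
  obtain ⟨C1, hC1, hLP⟩ := hLp n C σ hn hC hσ hσ1
  obtain ⟨v0, hv0, hV⟩ := hVlb n C1 σ hn hC1 hσ hσ1
  obtain ⟨Cm, hCm⟩ : ∃ Cm : ℝ, Cm = max C C1 := ⟨_, rfl⟩
  have hCm1 : C ≤ Cm := by rw [hCm]; exact le_max_left _ _
  have hCm2 : C1 ≤ Cm := by rw [hCm]; exact le_max_right _ _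
  obtain ⟨C2, hC2, hD⟩ := hDia hHeat n Cm σ hn (hC.trans hCm1) hσ hσ1
  refine ⟨v0 / C2 ^ n, by positivity, ?_⟩
  intro T l0 A θ hT hl0 hf hG0 hBl
  have hlp : ∀ t, 0 ≤ t → t < T → ∀ x, x ≠ 0 → 0 < lamf (A t) (θ t) x := fun t h0 h1 x hx =>
    lt_of_lt_of_le hl0 (hG0.p1 t h0 h1 x hx).1
  obtain ⟨τ, hL⟩ := hLP T l0 A θ hT hl0 hf hG0 hBl
  have hvol := hV T τ A θ hf hL (fun t h0 h1 x hx => (hlp t h0 h1 x hx).le)
  have hdia := hD T l0 τ A θ hl0 hf (Pool.Agent.Helper38.RFn.FIN.good_mono hl0 hC hCm1 hG0)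
    (Pool.Agent.Helper38.RFn.FIN.last_mono hC1 hCm2 hL)
  have hpow : gdiam (gOf (θ 0)) ^ n ≤ (C2 * Real.sqrt τ) ^ n :=
    pow_le_pow_left₀ (evm2_gdiam_nonneg _) hdia n
  calc v0 / C2 ^ n * gdiam (gOf (θ 0)) ^ n ≤ v0 / C2 ^ n * (C2 * Real.sqrt τ) ^ n :=
        mul_le_mul_of_nonneg_left hpow (by positivity)
    _ = v0 * Real.sqrt τ ^ n := by
        rw [mul_pow]
        field_simp
    _ ≤ gvol (gOf (θ 0)) := hvol

theorem p_EVM2 (hRP4 : Goal_RP4) : EvmStmt := by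
  intro hSta hCnf hFiv hDms hBef hDib hGbv hVmo hFst hFrc hFhm hLp hVlb hDia hHeat n hn heven
  obtain ⟨m, hm⟩ := heven
  obtain rfl : n = 2 * m := by omega
  have hm2 : 2 ≤ m := by omega
  obtain ⟨c1, hc1, A1, hA1, C1, hC1, hD⟩ := hDms (2 * m) hn
  have hnpos : (0 : ℝ) < ((2 * m : ℕ) : ℝ) := by
    have : 0 < 2 * m := by omega
    exact_mod_cast this
  obtain ⟨c, hcdef⟩ : ∃ c : ℝ, c = min c1 (1 / (4 * ((2 * m : ℕ) : ℝ))) := ⟨_, rfl⟩
  have hcc1 : c ≤ c1 := by rw [hcdef]; exact min_le_left _ _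
  have hcc2 : c ≤ 1 / (4 * ((2 * m : ℕ) : ℝ)) := by rw [hcdef]; exact min_le_right _ _
  have hc : 0 < c := by
    rw [hcdef]
    exact lt_min hc1 (by positivity)
  obtain ⟨C, σ, hC, hσ, hσ1, hG⟩ := hCnf (2 * m) hn c hc A1 (by linarith)
  obtain ⟨ε1, hε1, hE1⟩ := evm2_good hLp hVlb hDia hHeat (2 * m) C σ hn hC hσ hσ1
  obtain ⟨CR, hCR, hF⟩ := hFiv (2 * m) hn
  obtain ⟨A2, hA2, hB⟩ := hBef (2 * m) C σ hn hC hσ hσ1
  obtain ⟨C3, hC3def⟩ : ∃ C3 : ℝ, C3 = max (max C1 A2) CR := ⟨_, rfl⟩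
  have hC31 : C1 ≤ C3 := by
    rw [hC3def]; exact (le_max_left _ _).trans (le_max_left _ _)
  have hC32 : A2 ≤ C3 := by
    rw [hC3def]; exact (le_max_right _ _).trans (le_max_left _ _)
  have hC33 : CR ≤ C3 := by rw [hC3def]; exact le_max_right _ _
  obtain ⟨C4, hC4, hDb⟩ := hDib (2 * m) C3 hn (hC1.trans hC31)
  obtain ⟨cg, hcg, hGb⟩ := hGbv m hm2
  have hCR0 : 0 < CR := by linarith
  have hA20 : 0 < A2 := by linarith
  refine ⟨min ε1 (cg / ((CR * A2) ^ m * C4 ^ (2 * m))), lt_min hε1 (by positivity), ?_⟩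
  intro G hGm hpin
  obtain ⟨T, l0, Cs, σs, A, θ, hT, hl0, hCs, hσs, hσs1, hflow, hgo, hini, hgood, hblow⟩ :=
    hSta (2 * m) hn G hGm hpin
  rw [← Pool.Agent.Helper38.RFn.FIN.gdiam_congr hgo, ← Pool.Agent.Helper38.RFn.FIN.gvol_congr hgo]
  have hinv := hF T l0 A θ hT hl0 hflow hini
  have hlam : ∀ t, 0 ≤ t → t < T → ∀ x, x ≠ 0 → 0 < lamf (A t) (θ t) x := fun t h0 h1 x hx =>
    lt_of_lt_of_le hl0 (hinv t h0 h1 x hx).1
  have hpw : 0 ≤ gdiam (gOf (θ 0)) ^ (2 * m) := pow_nonneg (evm2_gdiam_nonneg _) _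
  rcases hFst (2 * m) (by omega) T l0 c A1 A θ hT hl0 hc (by linarith) hflow
      (fun t h0 h1 x hx => (hinv t h0 h1 x hx).1) with
    hcase | ⟨s, hs0, hsT, ⟨y, hy, hyA, hyN⟩, hbefore⟩
  · -- no bad time
    have hgd := hG T l0 A θ hT hl0 hflow hini hcase
    have h1 := hE1 T l0 A θ hT hl0 hflow hgd hblow
    exact (mul_le_mul_of_nonneg_right (min_le_left _ _) hpw).trans h1
  · -- the first bad time `s`
    obtain ⟨-, hfl⟩ := hFhm (2 * m)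
    obtain ⟨hfrm, -⟩ := hfl (Set.Ico 0 T) A θ hflow
    have hric : ∀ t, 0 ≤ t → t < T → ∀ x, x ≠ 0 →
        l0 ≤ lamf (A t) (θ t) x ∧ RcF 0 (A t) (θ t) x := by
      intro t h0 h1 x hx
      obtain ⟨a1, a2, -⟩ := hinv t h0 h1 x hx
      exact ⟨a1, (hFrc (2 * m) hn (A t) (θ t) (hfrm t ⟨h0, h1⟩) x hx a2).2.2⟩
    have hls : 0 ≤ lamf (A s) (θ s) y := (hlam s hs0.le hsT y hy).le
    have hgs : Good s l0 C σ A θ := by
      refine hG s l0 A θ hs0 hl0 (evm2_mono hsT.le hflow) hini ?_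
      intro t h0 h1 x hx hA
      exact hbefore t h0 h1 x hx hA
    have hbd := hB T s l0 A θ hs0 hsT hl0 hflow hgs hric
      ⟨y, hy, evm2_nqf_mono hRP4 (by omega) hcc2 hls hyN⟩
    have hdist := hD T l0 A θ hT hl0 hflow hini s y hs0 hsT hy hyA
      (evm2_nqf_mono hRP4 (by omega) hcc1 hls hyN)
    have hdiam : gdiam (gOf (θ 0)) ≤ C4 * Real.sqrt s := by
      refine hDb T l0 s A θ hl0 hs0 hsT hflow ?_ ?_
      · intro t h0 h1 x hx
        obtain ⟨a1, -, a3⟩ := hinv t h0.le (lt_of_le_of_lt h1 hsT) x hx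
        refine ⟨a1, fun a b c' d => (a3 a b c' d).trans ?_, (hbd t h0 h1 x hx).trans hC32⟩
        exact mul_le_mul_of_nonneg_right hC33 (hl0.le.trans a1)
      · intro x x' hx hx'
        exact (hdist x x' hx hx').trans (mul_le_mul_of_nonneg_right hC31 (Real.sqrt_nonneg _))
    have hΛ : 0 < CR * A2 / s := by positivity
    have hvol := hGb T l0 Cs σs A θ hT hl0 hCs hσs hσs1 hflow hgood hblow s hs0 hsT (CR * A2 / s) hΛ
      (by
        intro x hx a b c' d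
        obtain ⟨-, -, a3⟩ := hinv s hs0.le hsT x hx
        refine (a3 a b c' d).trans ?_
        have h1 := hbd s hs0 le_rfl x hx
        rw [mul_div_assoc]
        refine mul_le_mul_of_nonneg_left ?_ hCR0.le
        rw [le_div_iff₀ hs0, mul_comm]
        exact h1)
    have hmo := hVmo (2 * m) T A θ (by omega) hflow (fun t h0 h1 x hx => (hlam t h0 h1 x hx).le)
      s hs0.le hsT
    have h1 : cg ≤ (CR * A2 / s) ^ m * gvol (gOf (θ 0)) :=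
      hvol.trans (mul_le_mul_of_nonneg_left hmo (by positivity))
    have h2 : cg * s ^ m / (CR * A2) ^ m ≤ gvol (gOf (θ 0)) := by
      rw [div_pow] at h1
      rw [div_le_iff₀ (by positivity)]
      calc cg * s ^ m ≤ (CR * A2) ^ m / s ^ m * gvol (gOf (θ 0)) * s ^ m :=
            mul_le_mul_of_nonneg_right h1 (by positivity)
        _ = gvol (gOf (θ 0)) * (CR * A2) ^ m := by
            field_simp
    have h3 : gdiam (gOf (θ 0)) ^ (2 * m) ≤ C4 ^ (2 * m) * s ^ m := by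
      calc gdiam (gOf (θ 0)) ^ (2 * m) ≤ (C4 * Real.sqrt s) ^ (2 * m) :=
            pow_le_pow_left₀ (evm2_gdiam_nonneg _) hdiam _
        _ = C4 ^ (2 * m) * s ^ m := by
            rw [mul_pow, pow_mul (Real.sqrt s), Real.sq_sqrt hs0.le]
    calc min ε1 (cg / ((CR * A2) ^ m * C4 ^ (2 * m))) * gdiam (gOf (θ 0)) ^ (2 * m)
        ≤ cg / ((CR * A2) ^ m * C4 ^ (2 * m)) * gdiam (gOf (θ 0)) ^ (2 * m) :=
          mul_le_mul_of_nonneg_right (min_le_right _ _) hpw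
      _ ≤ cg / ((CR * A2) ^ m * C4 ^ (2 * m)) * (C4 ^ (2 * m) * s ^ m) :=
          mul_le_mul_of_nonneg_left h3 (by positivity)
      _ = cg * s ^ m / (CR * A2) ^ m := by
          field_simp
      _ ≤ gvol (gOf (θ 0)) := h2

end Pool.Agent.Helper47.FLG
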