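import Pool.Agent.Helper47.FLG.Pde

/-!
# Packet FLG-PF5 (MP_c98eff_gt, project of helper47): values of the Pfaffian
-/

set_option autoImplicit false

namespace Pool.Agent.Helper47.FLG

open Finset Pool.Agent.Helper47.RFn

/-! ### Positions -/

lemma pf5_cases {m : ℕ} (k : Fin (2 * m + 1)) :
    k = 0 ∨ (∃ j : Fin m, k = pe j) ∨ ∃ j : Fin m, k = po j := by
  rcases Nat.even_or_odd' k.1 with ⟨c, hc | hc⟩
  · rcases c with _ | c
    · left; exact Fin.ext (by simpa using hc)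
    · right; right
      have hk := k.2
      exact ⟨⟨c, by omega⟩, Fin.ext (by simp only [po]; omega)⟩
  · right; left
    have hk := k.2
    exact ⟨⟨c, by omega⟩, Fin.ext (by simp only [pe]; omega)⟩

lemma pf5_pe_ne_zero {m : ℕ} (j : Fin m) : pe j ≠ 0 := by
  intro h
  have := congrArg Fin.val h
  simp [pe] at this

lemma pf5_po_ne_zero {m : ℕ} (j : Fin m) : po j ≠ 0 := by
  intro h
  have := congrArg Fin.val h
  simp [po] at this

lemma pf5_pe_ne_po {m : ℕ} (i j : Fin m) : pe i ≠ po j := by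
  intro h
  have := congrArg Fin.val h
  simp only [pe, po] at this
  omega

lemma pf5_pe_inj {m : ℕ} {i j : Fin m} (h : pe i = pe j) : i = j := by
  have := congrArg Fin.val h
  simp only [pe] at this
  exact Fin.ext (by omega)

lemma pf5_po_inj {m : ℕ} {i j : Fin m} (h : po i = po j) : i = j := by
  have := congrArg Fin.val h
  simp only [po] at this
  exact Fin.ext (by omega)

/-- positions as a sum type -/
def pf5_pos (m : ℕ) : Unit ⊕ (Fin m ⊕ Fin m) → Fin (2 * m + 1) :=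
  Sum.elim (fun _ => 0) (Sum.elim pe po)

lemma pf5_pos_bij (m : ℕ) : Function.Bijective (pf5_pos m) := by
  rw [Fintype.bijective_iff_surjective_and_card]
  constructor
  · intro k
    rcases pf5_cases k with h | ⟨j, h⟩ | ⟨j, h⟩
    · exact ⟨Sum.inl (), h.symm⟩
    · exact ⟨Sum.inr (Sum.inl j), h.symm⟩
    · exact ⟨Sum.inr (Sum.inr j), h.symm⟩
  · simp only [Fintype.card_sum, Fintype.card_unit, Fintype.card_fin]
    omega

lemma pf5_prod {m : ℕ} (h : Fin (2 * m + 1) → ℝ) :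
    ∏ k, h k = h 0 * ∏ j : Fin m, (h (pe j) * h (po j)) := by
  rw [← (Equiv.ofBijective _ (pf5_pos_bij m)).prod_comp h, Fintype.prod_sum_type,
    Fintype.prod_sum_type, Finset.prod_mul_distrib]
  simp [pf5_pos]

/-- the values at the positions -/
def pf5_val {m : ℕ} {X : Type} (u : Fin (2 * m + 1) → X) : X × (Fin m → X × X) :=
  (u 0, fun j => (u (pe j), u (po j)))

lemma pf5_val_bij {m : ℕ} {X : Type} [Fintype X] [DecidableEq X] :
    Function.Bijective (pf5_val (m := m) (X := X)) := by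
  rw [Fintype.bijective_iff_injective_and_card]
  constructor
  · intro u u' h
    funext k
    have h0 := congrArg Prod.fst h
    have h1 := fun j => congrFun (congrArg Prod.snd h) j
    simp only [pf5_val] at h0 h1
    rcases pf5_cases k with hk | ⟨j, hk⟩ | ⟨j, hk⟩
    · rw [hk]; exact h0
    · rw [hk]; exact congrArg Prod.fst (h1 j)
    · rw [hk]; exact congrArg Prod.snd (h1 j)
  · simp only [Fintype.card_fun, Fintype.card_prod, Fintype.card_fin]
    rw [pow_succ, pow_mul, sq, mul_comm]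

lemma pf5_sum {m : ℕ} {X : Type} [Fintype X] [DecidableEq X] (F : X → (Fin m → X × X) → ℝ) :
    ∑ u : Fin (2 * m + 1) → X, F (u 0) (fun j => (u (pe j), u (po j))) = ∑ x, ∑ w, F x w := by
  rw [← Fintype.sum_prod_type' (f := F)]
  exact (Equiv.ofBijective _ pf5_val_bij).sum_comp (fun q : X × (Fin m → X × X) => F q.1 q.2)

/-! ### Signs -/

/-- the real sign -/
def pf5_sg {N : ℕ} (s : Equiv.Perm (Fin N)) : ℝ := ((Equiv.Perm.sign s : ℤ) : ℝ)

lemma pf5_sg_sq {N : ℕ} (s : Equiv.Perm (Fin N)) : pf5_sg s * pf5_sg s = 1 := by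
  unfold pf5_sg
  rcases Int.units_eq_one_or (Equiv.Perm.sign s) with h | h <;> simp [h]

lemma pf5_sg_abs {N : ℕ} (s : Equiv.Perm (Fin N)) : |pf5_sg s| = 1 := by
  unfold pf5_sg
  rcases Int.units_eq_one_or (Equiv.Perm.sign s) with h | h <;> simp [h]

lemma pf5_sg_mul_swap {N : ℕ} (s : Equiv.Perm (Fin N)) {i j : Fin N} (h : i ≠ j) :
    pf5_sg (s * Equiv.swap i j) = - pf5_sg s := by
  unfold pf5_sg
  rw [Equiv.Perm.sign_mul, Equiv.Perm.sign_swap h]
  simp

lemma pf5_alt {m : ℕ} (X : (Fin (2 * m + 1) → Fin (2 * m + 1)) →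
    (Fin (2 * m + 1) → Fin (2 * m + 1)) → ℝ) :
    alt X = ∑ s : Equiv.Perm (Fin (2 * m + 1)), ∑ p : Equiv.Perm (Fin (2 * m + 1)),
      pf5_sg s * pf5_sg p * X s p := by
  unfold alt pf5_sg
  refine Finset.sum_congr rfl fun s _ => Finset.sum_congr rfl fun p _ => ?_
  rw [zsmul_eq_mul]
  push_cast
  ring

lemma pf5_alt_sub {m : ℕ} (X Y : (Fin (2 * m + 1) → Fin (2 * m + 1)) →
    (Fin (2 * m + 1) → Fin (2 * m + 1)) → ℝ) :
    alt X - alt Y = alt (fun s p => X s p - Y s p) := by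
  rw [pf5_alt, pf5_alt, pf5_alt, ← Finset.sum_sub_distrib]
  refine Finset.sum_congr rfl fun s _ => ?_
  rw [← Finset.sum_sub_distrib]
  refine Finset.sum_congr rfl fun p _ => ?_
  ring

/-- The double alternating sum of a function with bounded values. -/
lemma pf5_alt_abs_le {m : ℕ} (X : (Fin (2 * m + 1) → Fin (2 * m + 1)) →
    (Fin (2 * m + 1) → Fin (2 * m + 1)) → ℝ) (L : ℝ) (h : ∀ s p, |X s p| ≤ L) :
    |alt X| ≤ (Nat.factorial (2 * m + 1) : ℝ) ^ 2 * L := by
  rw [pf5_alt]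
  refine (Finset.abs_sum_le_sum_abs _ _).trans ?_
  have h1 : ∀ s : Equiv.Perm (Fin (2 * m + 1)),
      |∑ p : Equiv.Perm (Fin (2 * m + 1)), pf5_sg s * pf5_sg p * X s p| ≤
        (Nat.factorial (2 * m + 1) : ℝ) * L := by
    intro s
    refine (Finset.abs_sum_le_sum_abs _ _).trans ?_
    have h2 : ∀ p : Equiv.Perm (Fin (2 * m + 1)), |pf5_sg s * pf5_sg p * X s p| ≤ L := by
      intro p
      rw [abs_mul, abs_mul, pf5_sg_abs, pf5_sg_abs, one_mul, one_mul]
      exact h _ _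
    refine (Finset.sum_le_sum fun p _ => h2 p).trans ?_
    rw [Finset.sum_const, nsmul_eq_mul, Finset.card_univ, Fintype.card_perm, Fintype.card_fin]
  refine (Finset.sum_le_sum fun s _ => h1 s).trans ?_
  rw [Finset.sum_const, nsmul_eq_mul, Finset.card_univ, Fintype.card_perm, Fintype.card_fin]
  rw [sq, mul_assoc]

/-- The double alternating sum of a function which is symmetric under a transposition. -/
lemma pf5_alt_zero {m : ℕ} (Y : (Fin (2 * m + 1) → Fin (2 * m + 1)) →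
    (Fin (2 * m + 1) → Fin (2 * m + 1)) → ℝ) {i j : Fin (2 * m + 1)} (hij : i ≠ j)
    (h : ∀ s p, Y s (fun l => p (Equiv.swap i j l)) = Y s p) : alt Y = 0 := by
  rw [pf5_alt]
  refine Finset.sum_eq_zero fun s _ => ?_
  have h1 := Equiv.sum_comp (Equiv.mulRight (Equiv.swap i j))
    (fun p : Equiv.Perm (Fin (2 * m + 1)) => pf5_sg s * pf5_sg p * Y s p)
  have h2 : ∀ p : Equiv.Perm (Fin (2 * m + 1)),
      (fun p : Equiv.Perm (Fin (2 * m + 1)) => pf5_sg s * pf5_sg p * Y s p)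
        ((Equiv.mulRight (Equiv.swap i j)) p) = - (pf5_sg s * pf5_sg p * Y s p) := by
    intro p
    have e1 : ((Equiv.mulRight (Equiv.swap i j)) p : Equiv.Perm (Fin (2 * m + 1))) =
        p * Equiv.swap i j := rfl
    have e2 : ((p * Equiv.swap i j : Equiv.Perm (Fin (2 * m + 1))) :
        Fin (2 * m + 1) → Fin (2 * m + 1)) = fun l => p (Equiv.swap i j l) := rfl
    simp only [e1]
    rw [pf5_sg_mul_swap _ hij, e2, h]
    ring
  rw [Finset.sum_congr rfl (fun p _ => h2 p), Finset.sum_neg_distrib] at h1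
  linarith

/-! ### The value at the curvature of constant curvature -/

lemma pf5_det {m : ℕ} (ν : Fin (2 * m + 1) → ℝ) (s : Equiv.Perm (Fin (2 * m + 1))) :
    ∑ p : Equiv.Perm (Fin (2 * m + 1)), pf5_sg p * (ν (p 0) * ∏ j : Fin m,
      (Pm ν (s (pe j)) (p (pe j)) * Pm ν (s (po j)) (p (po j)))) = pf5_sg s * ν (s 0) := by
  classical
  set M : Matrix (Fin (2 * m + 1)) (Fin (2 * m + 1)) ℝ :=
    fun k a => if k = 0 then ν a else Pm ν (s k) a with hM
  set B : Matrix (Fin (2 * m + 1)) (Fin (2 * m + 1)) ℝ :=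
    fun k a => if k = 0 then ν a else if s k = a then 1 else 0 with hB
  have h1 : M.det = ∑ p : Equiv.Perm (Fin (2 * m + 1)), pf5_sg p * (ν (p 0) * ∏ j : Fin m,
      (Pm ν (s (pe j)) (p (pe j)) * Pm ν (s (po j)) (p (po j)))) := by
    rw [← Matrix.det_transpose, Matrix.det_apply']
    refine Finset.sum_congr rfl fun p _ => ?_
    rw [pf5_prod (fun i => M.transpose (p i) i)]
    simp only [hM, Matrix.transpose_apply, if_true, pf5_pe_ne_zero, pf5_po_ne_zero, if_false]
    rfl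
  have h2 : M.det = B.det := by
    refine Matrix.det_eq_of_forall_row_eq_smul_add_const
      (fun k => if k = 0 then 0 else - ν (s k)) 0 (by simp) ?_
    intro k a
    by_cases hk : k = 0
    · simp [hM, hB, hk]
    · simp only [hM, hB, hk, if_false, if_true, Pm]
      ring
  have h3 : B.det = pf5_sg s * ν (s 0) := by
    rw [← Matrix.det_transpose, Matrix.det_apply', Finset.sum_eq_single s]
    · rw [pf5_prod (fun i => B.transpose (s i) i)]
      simp only [hB, Matrix.transpose_apply, if_true, pf5_pe_ne_zero, pf5_po_ne_zero, if_false]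
      simp [pf5_sg]
    · intro p _ hp
      have : ∃ k, k ≠ 0 ∧ s k ≠ p k := by
        by_contra hcon
        push Not at hcon
        apply hp
        have h0 : p 0 = s 0 := by
          have hx : ∃ k, p k = s 0 := p.surjective _
          obtain ⟨k, hk⟩ := hx
          by_cases hk0 : k = 0
          · rw [← hk0]; rwa [hk0] at hk ⊢
          · rw [← hcon k hk0] at hk
            exact absurd (s.injective hk) hk0
        ext k
        by_cases hk0 : k = 0
        · rw [hk0, h0]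
        · rw [hcon k hk0]
      obtain ⟨k, hk, hk'⟩ := this
      rw [Finset.prod_eq_zero (Finset.mem_univ k), mul_zero]
      simp [hB, Matrix.transpose_apply, hk, hk']
    · intro h
      exact absurd (Finset.mem_univ s) h
  rw [← h1, h2, h3]

lemma pf5_perm_sum {m : ℕ} (g : Fin (2 * m + 1) → ℝ) :
    ∑ s : Equiv.Perm (Fin (2 * m + 1)), g (s 0) = (Nat.factorial (2 * m) : ℝ) * ∑ a, g a := by
  rw [← (Equiv.Perm.decomposeFin (n := 2 * m)).symm.sum_comp (fun s => g (s 0)),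
    Fintype.sum_prod_type]
  simp only [Equiv.Perm.decomposeFin_symm_apply_zero, Finset.sum_const, Finset.card_univ,
    Fintype.card_perm, Fintype.card_fin, nsmul_eq_mul]
  rw [Finset.mul_sum]

/-- the factor `j` of the wedge square -/
noncomputable def pf5_AB {m : ℕ} (ν : Fin (2 * m + 1) → ℝ) (s p : Fin (2 * m + 1) → Fin (2 * m + 1))
    (j : Fin m) : ℝ :=
  Pm ν (s (pe j)) (p (pe j)) * Pm ν (s (po j)) (p (po j)) -
    Pm ν (s (pe j)) (p (po j)) * Pm ν (s (po j)) (p (pe j))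

lemma pf5_wdg {m : ℕ} (ν : Fin (2 * m + 1) → ℝ) (s p : Fin (2 * m + 1) → Fin (2 * m + 1))
    (j : Fin m) (κ : ℝ) : (κ • wdg (Pm ν) (Pm ν)) (s (pe j)) (s (po j)) (p (pe j)) (p (po j)) =
      κ * pf5_AB ν s p j := by
  simp only [Pi.smul_apply, smul_eq_mul, wdg, pf5_AB]
  ring

/-- the interpolating functions -/
noncomputable def pf5_Q {m : ℕ} (ν : Fin (2 * m + 1) → ℝ) (K : Finset (Fin m))
    (s p : Fin (2 * m + 1) → Fin (2 * m + 1)) : ℝ :=
  ν (s 0) * ν (p 0) * ∏ j : Fin m, (if j ∈ K then pf5_AB ν s p j else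
    2 * (Pm ν (s (pe j)) (p (pe j)) * Pm ν (s (po j)) (p (po j))))

lemma pf5_step {m : ℕ} (ν : Fin (2 * m + 1) → ℝ) (K : Finset (Fin m)) (i : Fin m) (hi : i ∉ K) :
    alt (pf5_Q ν (insert i K)) = alt (pf5_Q ν K) := by
  rw [← sub_eq_zero, pf5_alt_sub]
  have e : ∀ s p : Fin (2 * m + 1) → Fin (2 * m + 1), pf5_Q ν (insert i K) s p - pf5_Q ν K s p =
      - (ν (s 0) * ν (p 0) * ((Pm ν (s (pe i)) (p (pe i)) * Pm ν (s (po i)) (p (po i)) +
        Pm ν (s (pe i)) (p (po i)) * Pm ν (s (po i)) (p (pe i))) *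
        ∏ j ∈ univ.erase i, (if j ∈ K then pf5_AB ν s p j else
          2 * (Pm ν (s (pe j)) (p (pe j)) * Pm ν (s (po j)) (p (po j)))))) := by
    intro s p
    unfold pf5_Q
    rw [← Finset.mul_prod_erase univ _ (Finset.mem_univ i),
      ← Finset.mul_prod_erase univ (fun j => if j ∈ K then pf5_AB ν s p j else
          2 * (Pm ν (s (pe j)) (p (pe j)) * Pm ν (s (po j)) (p (po j)))) (Finset.mem_univ i)]
    have e1 : ∏ j ∈ univ.erase i, (if j ∈ insert i K then pf5_AB ν s p j else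
          2 * (Pm ν (s (pe j)) (p (pe j)) * Pm ν (s (po j)) (p (po j)))) =
        ∏ j ∈ univ.erase i, (if j ∈ K then pf5_AB ν s p j else
          2 * (Pm ν (s (pe j)) (p (pe j)) * Pm ν (s (po j)) (p (po j)))) := by
      refine Finset.prod_congr rfl fun j hj => ?_
      have hji : j ≠ i := Finset.ne_of_mem_erase hj
      simp [Finset.mem_insert, hji]
    rw [e1, if_pos (Finset.mem_insert_self i K), if_neg hi]
    unfold pf5_AB
    ring
  simp only [e]
  refine pf5_alt_zero _ (pf5_pe_ne_po i i) ?_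
  intro s p
  have e0 : Equiv.swap (pe i) (po i) (0 : Fin (2 * m + 1)) = 0 :=
    Equiv.swap_apply_of_ne_of_ne (pf5_pe_ne_zero i).symm (pf5_po_ne_zero i).symm
  have e1 : ∏ j ∈ univ.erase i, (if j ∈ K then pf5_AB ν s (fun l => p (Equiv.swap (pe i) (po i) l)) j
      else 2 * (Pm ν (s (pe j)) (p (Equiv.swap (pe i) (po i) (pe j))) *
        Pm ν (s (po j)) (p (Equiv.swap (pe i) (po i) (po j))))) =
      ∏ j ∈ univ.erase i, (if j ∈ K then pf5_AB ν s p j else
          2 * (Pm ν (s (pe j)) (p (pe j)) * Pm ν (s (po j)) (p (po j)))) := by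
    refine Finset.prod_congr rfl fun j hj => ?_
    have hji : j ≠ i := Finset.ne_of_mem_erase hj
    have e2 : Equiv.swap (pe i) (po i) (pe j) = pe j :=
      Equiv.swap_apply_of_ne_of_ne (fun h => hji (pf5_pe_inj h)) (pf5_pe_ne_po j i)
    have e3 : Equiv.swap (pe i) (po i) (po j) = po j :=
      Equiv.swap_apply_of_ne_of_ne (pf5_pe_ne_po i j).symm (fun h => hji (pf5_po_inj h))
    unfold pf5_AB
    simp only [e2, e3]
  simp only [e0, Equiv.swap_apply_left, Equiv.swap_apply_right]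
  rw [e1]
  ring

lemma pf5_value {m : ℕ} (ν : Fin (2 * m + 1) → ℝ) (hν : ∑ i, ν i ^ 2 = 1) (κ : ℝ) :
    pft (κ • wdg (Pm ν) (Pm ν)) ν = 2 ^ m * (Nat.factorial (2 * m) : ℝ) * κ ^ m := by
  classical
  have h1 : pft (κ • wdg (Pm ν) (Pm ν)) ν = κ ^ m * alt (pf5_Q ν univ) := by
    unfold pft
    rw [pf5_alt, pf5_alt, Finset.mul_sum]
    refine Finset.sum_congr rfl fun s _ => ?_
    rw [Finset.mul_sum]
    refine Finset.sum_congr rfl fun p _ => ?_
    unfold pf5_Q
    simp only [pf5_wdg, Finset.mem_univ, if_true]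
    rw [Finset.prod_mul_distrib, Finset.prod_const, Finset.card_univ, Fintype.card_fin]
    ring
  have h2 : ∀ K : Finset (Fin m), alt (pf5_Q ν K) = alt (pf5_Q ν ∅) := by
    intro K
    induction K using Finset.induction_on with
    | empty => rfl
    | insert i K hi ih => rw [pf5_step ν K i hi, ih]
  have h3 : alt (pf5_Q ν (∅ : Finset (Fin m))) = 2 ^ m * (Nat.factorial (2 * m) : ℝ) := by
    rw [pf5_alt]
    have e : ∀ s : Equiv.Perm (Fin (2 * m + 1)),
        ∑ p : Equiv.Perm (Fin (2 * m + 1)), pf5_sg s * pf5_sg p * pf5_Q ν ∅ s p = 2 ^ m * ν (s 0) ^ 2 := by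
      intro s
      have e1 : ∀ p : Equiv.Perm (Fin (2 * m + 1)), pf5_sg s * pf5_sg p * pf5_Q ν ∅ s p =
          (2 ^ m * pf5_sg s * ν (s 0)) * (pf5_sg p * (ν (p 0) * ∏ j : Fin m,
            (Pm ν (s (pe j)) (p (pe j)) * Pm ν (s (po j)) (p (po j))))) := by
        intro p
        unfold pf5_Q
        simp only [Finset.notMem_empty, if_false]
        rw [Finset.prod_mul_distrib, Finset.prod_const, Finset.card_univ, Fintype.card_fin]
        ring
      rw [Finset.sum_congr rfl (fun p _ => e1 p), ← Finset.mul_sum, pf5_det]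
      have := pf5_sg_sq s
      calc 2 ^ m * pf5_sg s * ν (s 0) * (pf5_sg s * ν (s 0)) = 2 ^ m * (pf5_sg s * pf5_sg s) * ν (s 0) ^ 2 := by
            ring
        _ = 2 ^ m * ν (s 0) ^ 2 := by rw [this, mul_one]
    rw [Finset.sum_congr rfl (fun s _ => e s), ← Finset.mul_sum, pf5_perm_sum (fun a => ν a ^ 2), hν,
      mul_one]
  rw [h1, h2, h3]
  ring

/-! ### Bounds -/

lemma pf5_prod_abs {ι : Type} (K : Finset ι) (a : ι → ℝ) (L : ℝ) (h : ∀ j, |a j| ≤ L) :
    |∏ j ∈ K, a j| ≤ L ^ K.card := by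
  rw [Finset.abs_prod]
  calc ∏ j ∈ K, |a j| ≤ ∏ _j ∈ K, L :=
        Finset.prod_le_prod (fun j _ => abs_nonneg _) (fun j _ => h j)
    _ = L ^ K.card := by rw [Finset.prod_const]

lemma pf5_telescope {ι : Type} [DecidableEq ι] (K : Finset ι) (a b : ι → ℝ) (L e : ℝ)
    (ha : ∀ j, |a j| ≤ L) (hb : ∀ j, |b j| ≤ L) (hab : ∀ j, |a j - b j| ≤ e) :
    |∏ j ∈ K, a j - ∏ j ∈ K, b j| ≤ K.card * e * L ^ (K.card - 1) := by
  induction K using Finset.induction_on with
  | empty => simp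
  | insert i K hi ih =>
    rw [Finset.prod_insert hi, Finset.prod_insert hi, Finset.card_insert_of_notMem hi]
    have hL : 0 ≤ L := (abs_nonneg _).trans (ha i)
    have he : 0 ≤ e := (abs_nonneg _).trans (hab i)
    have h1 : a i * ∏ j ∈ K, a j - b i * ∏ j ∈ K, b j =
        (a i - b i) * ∏ j ∈ K, a j + b i * (∏ j ∈ K, a j - ∏ j ∈ K, b j) := by ring
    rw [h1]
    refine (abs_add_le _ _).trans ?_
    rw [abs_mul, abs_mul]
    have h2 : |a i - b i| * |∏ j ∈ K, a j| ≤ e * L ^ K.card :=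
      mul_le_mul (hab i) (pf5_prod_abs K a L ha) (abs_nonneg _) he
    have h3 : |b i| * |∏ j ∈ K, a j - ∏ j ∈ K, b j| ≤ L * (K.card * e * L ^ (K.card - 1)) :=
      mul_le_mul (hb i) ih (abs_nonneg _) hL
    have h4 : L * (K.card * e * L ^ (K.card - 1)) = K.card * e * L ^ K.card := by
      rcases Nat.eq_zero_or_pos K.card with h0 | h0
      · rw [h0]; simp
      · obtain ⟨c, hc⟩ := Nat.exists_eq_succ_of_ne_zero h0.ne'
        rw [hc, Nat.succ_sub_one, pow_succ]
        ring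
    rw [Nat.add_sub_cancel]
    push_cast
    linarith

lemma pf5_nu_abs {m : ℕ} (ν : Fin (2 * m + 1) → ℝ) (hν : ∑ i, ν i ^ 2 = 1)
    (i : Fin (2 * m + 1)) : |ν i| ≤ 1 := by
  have h := Finset.single_le_sum (f := fun i => ν i ^ 2) (fun i _ => sq_nonneg _)
    (Finset.mem_univ i)
  rw [hν] at h
  exact abs_le_of_sq_le_sq' (by simpa using h) zero_le_one |> abs_le.2

lemma pf5_Pm_abs {m : ℕ} (ν : Fin (2 * m + 1) → ℝ) (hν : ∑ i, ν i ^ 2 = 1)
    (i j : Fin (2 * m + 1)) : |Pm ν i j| ≤ 2 := by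
  unfold Pm
  have h1 : |(if i = j then (1 : ℝ) else 0)| ≤ 1 := by split_ifs <;> simp
  have h2 : |ν i * ν j| ≤ 1 := by
    rw [abs_mul]
    exact mul_le_one₀ (pf5_nu_abs ν hν i) (abs_nonneg _) (pf5_nu_abs ν hν j)
  calc |(if i = j then (1 : ℝ) else 0) - ν i * ν j| ≤ |(if i = j then (1 : ℝ) else 0)| + |ν i * ν j| :=
        abs_sub _ _
    _ ≤ 2 := by linarith

lemma pf5_wdg_abs {m : ℕ} (ν : Fin (2 * m + 1) → ℝ) (hν : ∑ i, ν i ^ 2 = 1) (κ : ℝ) (hκ : 0 ≤ κ)
    (a b c d : Fin (2 * m + 1)) : |(κ • wdg (Pm ν) (Pm ν)) a b c d| ≤ 8 * κ := by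
  have e : (κ • wdg (Pm ν) (Pm ν)) a b c d =
      κ * (Pm ν a c * Pm ν b d - Pm ν a d * Pm ν b c) := by
    simp only [Pi.smul_apply, smul_eq_mul, wdg]
    ring
  rw [e, abs_mul, abs_of_nonneg hκ]
  have h1 : |Pm ν a c * Pm ν b d| ≤ 2 * 2 := by
    rw [abs_mul]
    exact mul_le_mul (pf5_Pm_abs ν hν _ _) (pf5_Pm_abs ν hν _ _) (abs_nonneg _) (by norm_num)
  have h2 : |Pm ν a d * Pm ν b c| ≤ 2 * 2 := by
    rw [abs_mul]
    exact mul_le_mul (pf5_Pm_abs ν hν _ _) (pf5_Pm_abs ν hν _ _) (abs_nonneg _) (by norm_num)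
  have h3 : |Pm ν a c * Pm ν b d - Pm ν a d * Pm ν b c| ≤ 8 :=
    (abs_sub _ _).trans (by linarith)
  nlinarith

/-! ### Rotations -/

/-- the summand of the Pfaffian -/
noncomputable def pf5_T {m : ℕ} (R : T4 (2 * m + 1)) (ν : Fin (2 * m + 1) → ℝ)
    (u v : Fin (2 * m + 1) → Fin (2 * m + 1)) : ℝ :=
  ν (u 0) * ν (v 0) * ∏ j : Fin m, R (u (pe j)) (u (po j)) (v (pe j)) (v (po j))

lemma pf5_expand {m : ℕ} (R : T4 (2 * m + 1)) (ν : Fin (2 * m + 1) → ℝ)
    (O : Fin (2 * m + 1) → Fin (2 * m + 1) → ℝ) (s p : Fin (2 * m + 1) → Fin (2 * m + 1)) :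
    pf5_T (rot O R) (fun a => dot (O a) ν) s p =
      ∑ u : Fin (2 * m + 1) → Fin (2 * m + 1), ∑ v : Fin (2 * m + 1) → Fin (2 * m + 1),
        pf5_T R ν u v * (∏ k, O (s k) (u k)) * ∏ k, O (p k) (v k) := by
  classical
  -- the right hand side
  set G : Fin m → (Fin (2 * m + 1) × Fin (2 * m + 1)) → (Fin (2 * m + 1) × Fin (2 * m + 1)) → ℝ :=
    fun j a b => R a.1 a.2 b.1 b.2 * O (s (pe j)) a.1 * O (s (po j)) a.2 * O (p (pe j)) b.1 *
      O (p (po j)) b.2 with hG
  have h1 : ∀ u v : Fin (2 * m + 1) → Fin (2 * m + 1),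
      pf5_T R ν u v * (∏ k, O (s k) (u k)) * ∏ k, O (p k) (v k) =
        (ν (u 0) * O (s 0) (u 0)) * ((ν (v 0) * O (p 0) (v 0)) *
          ∏ j, G j (u (pe j), u (po j)) (v (pe j), v (po j))) := by
    intro u v
    unfold pf5_T
    rw [pf5_prod (fun k => O (s k) (u k)), pf5_prod (fun k => O (p k) (v k))]
    have : ∏ j, G j (u (pe j), u (po j)) (v (pe j), v (po j)) =
        (∏ j : Fin m, R (u (pe j)) (u (po j)) (v (pe j)) (v (po j))) *
          (∏ j : Fin m, (O (s (pe j)) (u (pe j)) * O (s (po j)) (u (po j)))) *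
          ∏ j : Fin m, (O (p (pe j)) (v (pe j)) * O (p (po j)) (v (po j))) := by
      rw [← Finset.prod_mul_distrib, ← Finset.prod_mul_distrib]
      refine Finset.prod_congr rfl fun j _ => ?_
      simp only [hG]
      ring
    rw [this]
    ring
  have h2 : ∀ u : Fin (2 * m + 1) → Fin (2 * m + 1),
      ∑ v : Fin (2 * m + 1) → Fin (2 * m + 1),
        pf5_T R ν u v * (∏ k, O (s k) (u k)) * ∏ k, O (p k) (v k) =
      (ν (u 0) * O (s 0) (u 0)) * ∑ y, ∑ z : Fin m → (Fin (2 * m + 1) × Fin (2 * m + 1)),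
        ((ν y * O (p 0) y) * ∏ j, G j (u (pe j), u (po j)) (z j)) := by
    intro u
    rw [Finset.sum_congr rfl (fun v _ => h1 u v), ← Finset.mul_sum]
    congr 1
    exact pf5_sum (fun y z => (ν y * O (p 0) y) * ∏ j, G j (u (pe j), u (po j)) (z j))
  rw [Finset.sum_congr rfl (fun u _ => h2 u)]
  rw [pf5_sum (fun x w => (ν x * O (s 0) x) * ∑ y,
    ∑ z : Fin m → (Fin (2 * m + 1) × Fin (2 * m + 1)),
        ((ν y * O (p 0) y) * ∏ j, G j (w j) (z j)))]
  -- separate
  have h3 : ∀ w : Fin m → (Fin (2 * m + 1) × Fin (2 * m + 1)),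
      ∑ y, ∑ z : Fin m → (Fin (2 * m + 1) × Fin (2 * m + 1)),
        ((ν y * O (p 0) y) * ∏ j, G j (w j) (z j)) =
      (∑ y, ν y * O (p 0) y) *
        ∑ z : Fin m → (Fin (2 * m + 1) × Fin (2 * m + 1)), ∏ j, G j (w j) (z j) := by
    intro w
    rw [Finset.sum_mul]
    refine Finset.sum_congr rfl fun y _ => ?_
    rw [Finset.mul_sum]
  have h4 : ∑ x, ∑ w : Fin m → (Fin (2 * m + 1) × Fin (2 * m + 1)),
      ((ν x * O (s 0) x) * ∑ y, ∑ z : Fin m → (Fin (2 * m + 1) × Fin (2 * m + 1)),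
        ((ν y * O (p 0) y) * ∏ j, G j (w j) (z j))) =
      (∑ x, ν x * O (s 0) x) * ((∑ y, ν y * O (p 0) y) *
        ∑ w : Fin m → (Fin (2 * m + 1) × Fin (2 * m + 1)),
          ∑ z : Fin m → (Fin (2 * m + 1) × Fin (2 * m + 1)), ∏ j, G j (w j) (z j)) := by
    rw [Finset.sum_mul]
    refine Finset.sum_congr rfl fun x _ => ?_
    rw [← Finset.mul_sum]
    congr 1
    rw [Finset.mul_sum]
    exact Finset.sum_congr rfl fun w _ => h3 w
  rw [h4]
  -- the product of the double sums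
  have h5 : ∑ w : Fin m → (Fin (2 * m + 1) × Fin (2 * m + 1)),
      ∑ z : Fin m → (Fin (2 * m + 1) × Fin (2 * m + 1)), ∏ j, G j (w j) (z j) =
      ∏ j, ∑ a, ∑ b, G j a b := by
    have e1 : ∀ j, ∑ a, ∑ b, G j a b = ∑ q : (Fin (2 * m + 1) × Fin (2 * m + 1)) ×
        (Fin (2 * m + 1) × Fin (2 * m + 1)), G j q.1 q.2 := by
      intro j
      exact (Fintype.sum_prod_type' (fun a b => G j a b)).symm
    rw [Finset.prod_congr rfl (fun j _ => e1 j), Finset.prod_univ_sum, Fintype.piFinset_univ]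
    rw [← Fintype.sum_prod_type' (f := fun (w : Fin m → (Fin (2 * m + 1) × Fin (2 * m + 1)))
      (z : Fin m → (Fin (2 * m + 1) × Fin (2 * m + 1))) => ∏ j, G j (w j) (z j))]
    exact ((Equiv.arrowProdEquivProdArrow (Fin m)
      (fun _ => Fin (2 * m + 1) × Fin (2 * m + 1))
      (fun _ => Fin (2 * m + 1) × Fin (2 * m + 1))).sum_comp
      (fun q : (Fin m → (Fin (2 * m + 1) × Fin (2 * m + 1))) ×
        (Fin m → (Fin (2 * m + 1) × Fin (2 * m + 1))) => ∏ j, G j (q.1 j) (q.2 j))).symm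
  rw [h5]
  unfold pf5_T
  have e2 : ∀ t : Fin (2 * m + 1), dot (O t) ν = ∑ x, ν x * O t x := by
    intro t
    unfold dot
    exact Finset.sum_congr rfl fun x _ => mul_comm _ _
  have e3 : ∀ j : Fin m, rot O R (s (pe j)) (s (po j)) (p (pe j)) (p (po j)) =
      ∑ a, ∑ b, G j a b := by
    intro j
    unfold rot R4
    rw [Fintype.sum_prod_type]
    refine Finset.sum_congr rfl fun a _ => Finset.sum_congr rfl fun b _ => ?_
    rw [Fintype.sum_prod_type]
  beta_reduce
  rw [e2, e2, Finset.prod_congr rfl (fun j _ => e3 j)]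
  ring

/-- Sums against column determinants. -/
lemma pf5_sum_det {N : ℕ} (O : Matrix (Fin N) (Fin N) ℝ) (F : (Fin N → Fin N) → ℝ) :
    ∑ u : Fin N → Fin N, F u * (O.submatrix id u).det =
      O.det * ∑ σ : Equiv.Perm (Fin N), pf5_sg σ * F σ := by
  classical
  have h1 : ∑ u : Fin N → Fin N, F u * (O.submatrix id u).det =
      ∑ u ∈ (univ : Finset (Fin N → Fin N)).filter Function.Bijective,
        F u * (O.submatrix id u).det := by
    refine (Finset.sum_subset (Finset.filter_subset _ _) fun u _ hu => ?_).symm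
    have hu' : ¬ Function.Bijective u := by
      simpa only [Finset.mem_filter, Finset.mem_univ, true_and] using hu
    have hu2 : ¬ Function.Injective u := fun h => hu' (Finite.injective_iff_bijective.1 h)
    unfold Function.Injective at hu2
    push Not at hu2
    obtain ⟨i, j, hij, hne⟩ := hu2
    rw [Matrix.det_zero_of_column_eq hne (fun k => by simp [Matrix.submatrix_apply, hij]), mul_zero]
  have h2 : ∑ u ∈ (univ : Finset (Fin N → Fin N)).filter Function.Bijective,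
        F u * (O.submatrix id u).det =
      ∑ σ : Equiv.Perm (Fin N), F σ * (O.submatrix id σ).det :=
    Finset.sum_bij (fun q h => Equiv.ofBijective q (Finset.mem_filter.1 h).2)
      (fun _ _ => Finset.mem_univ _) (fun _ _ _ _ h => by injection h)
      (fun b _ => ⟨b, Finset.mem_filter.2 ⟨Finset.mem_univ _, b.bijective⟩,
        Equiv.coe_fn_injective rfl⟩) fun _ _ => rfl
  rw [h1, h2, Finset.mul_sum]
  refine Finset.sum_congr rfl fun σ _ => ?_
  rw [Matrix.det_permute']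
  unfold pf5_sg
  ring

lemma pf5_det_sub {N : ℕ} (O : Matrix (Fin N) (Fin N) ℝ) (u : Fin N → Fin N) :
    ∑ s : Equiv.Perm (Fin N), pf5_sg s * ∏ k, O (s k) (u k) = (O.submatrix id u).det := by
  rw [Matrix.det_apply']
  rfl

lemma pf5_rot {m : ℕ} (R : T4 (2 * m + 1)) (ν : Fin (2 * m + 1) → ℝ)
    (O : Fin (2 * m + 1) → Fin (2 * m + 1) → ℝ) (hO : ON O) :
    pft (rot O R) (fun a => dot (O a) ν) = pft R ν := by
  classical
  set OM : Matrix (Fin (2 * m + 1)) (Fin (2 * m + 1)) ℝ := O with hOM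
  have hdet : OM.det * OM.det = 1 := by
    have h1 : OM * OM.transpose = 1 := by
      ext i j
      rw [Matrix.mul_apply, Matrix.one_apply]
      exact hO i j
    have h2 := congrArg Matrix.det h1
    rwa [Matrix.det_mul, Matrix.det_transpose, Matrix.det_one] at h2
  have e1 : pft (rot O R) (fun a => dot (O a) ν) =
      ∑ s : Equiv.Perm (Fin (2 * m + 1)), ∑ p : Equiv.Perm (Fin (2 * m + 1)),
        pf5_sg s * pf5_sg p * pf5_T (rot O R) (fun a => dot (O a) ν) s p := by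
    unfold pft
    rw [pf5_alt]
    rfl
  have e2 : pft R ν = ∑ s : Equiv.Perm (Fin (2 * m + 1)), ∑ p : Equiv.Perm (Fin (2 * m + 1)),
        pf5_sg s * pf5_sg p * pf5_T R ν s p := by
    unfold pft
    rw [pf5_alt]
    rfl
  have e3 : ∑ s : Equiv.Perm (Fin (2 * m + 1)), ∑ p : Equiv.Perm (Fin (2 * m + 1)),
        pf5_sg s * pf5_sg p * pf5_T (rot O R) (fun a => dot (O a) ν) s p =
      ∑ u : Fin (2 * m + 1) → Fin (2 * m + 1), ∑ v : Fin (2 * m + 1) → Fin (2 * m + 1),
        pf5_T R ν u v * (OM.submatrix id u).det * (OM.submatrix id v).det := by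
    have f1 : ∀ s p : Equiv.Perm (Fin (2 * m + 1)),
        pf5_sg s * pf5_sg p * pf5_T (rot O R) (fun a => dot (O a) ν) s p =
        ∑ u : Fin (2 * m + 1) → Fin (2 * m + 1), ∑ v : Fin (2 * m + 1) → Fin (2 * m + 1),
          pf5_T R ν u v * (pf5_sg s * ∏ k, OM (s k) (u k)) * (pf5_sg p * ∏ k, OM (p k) (v k)) := by
      intro s p
      rw [pf5_expand, Finset.mul_sum]
      refine Finset.sum_congr rfl fun u _ => ?_
      rw [Finset.mul_sum]
      refine Finset.sum_congr rfl fun v _ => ?_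
      ring
    rw [Finset.sum_congr rfl (fun s _ => Finset.sum_congr rfl (fun p _ => f1 s p))]
    -- interchange
    have f2 : ∀ s : Equiv.Perm (Fin (2 * m + 1)), ∑ p : Equiv.Perm (Fin (2 * m + 1)),
        ∑ u : Fin (2 * m + 1) → Fin (2 * m + 1), ∑ v : Fin (2 * m + 1) → Fin (2 * m + 1),
          pf5_T R ν u v * (pf5_sg s * ∏ k, OM (s k) (u k)) * (pf5_sg p * ∏ k, OM (p k) (v k)) =
        ∑ u : Fin (2 * m + 1) → Fin (2 * m + 1), ∑ v : Fin (2 * m + 1) → Fin (2 * m + 1),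
          pf5_T R ν u v * (pf5_sg s * ∏ k, OM (s k) (u k)) * (OM.submatrix id v).det := by
      intro s
      rw [Finset.sum_comm]
      refine Finset.sum_congr rfl fun u _ => ?_
      rw [Finset.sum_comm]
      refine Finset.sum_congr rfl fun v _ => ?_
      rw [← Finset.mul_sum, pf5_det_sub]
    rw [Finset.sum_congr rfl (fun s _ => f2 s), Finset.sum_comm]
    refine Finset.sum_congr rfl fun u _ => ?_
    rw [Finset.sum_comm]
    refine Finset.sum_congr rfl fun v _ => ?_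
    rw [← Finset.sum_mul, ← Finset.mul_sum, pf5_det_sub]
  have e4 : ∑ u : Fin (2 * m + 1) → Fin (2 * m + 1), ∑ v : Fin (2 * m + 1) → Fin (2 * m + 1),
        pf5_T R ν u v * (OM.submatrix id u).det * (OM.submatrix id v).det =
      OM.det * ∑ s : Equiv.Perm (Fin (2 * m + 1)), pf5_sg s * (OM.det *
        ∑ p : Equiv.Perm (Fin (2 * m + 1)), pf5_sg p * pf5_T R ν s p) := by
    rw [← pf5_sum_det OM (fun u => OM.det * ∑ p : Equiv.Perm (Fin (2 * m + 1)),
      pf5_sg p * pf5_T R ν u p)]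
    refine Finset.sum_congr rfl fun u _ => ?_
    rw [← pf5_sum_det OM (fun v => pf5_T R ν u v), Finset.sum_mul]
    refine Finset.sum_congr rfl fun v _ => ?_
    ring
  rw [e1, e3, e4, e2]
  have e5 : ∀ s : Equiv.Perm (Fin (2 * m + 1)), pf5_sg s * (OM.det *
        ∑ p : Equiv.Perm (Fin (2 * m + 1)), pf5_sg p * pf5_T R ν s p) =
      OM.det * ∑ p : Equiv.Perm (Fin (2 * m + 1)), pf5_sg s * pf5_sg p * pf5_T R ν s p := by
    intro s
    rw [Finset.mul_sum, Finset.mul_sum, Finset.mul_sum]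
    refine Finset.sum_congr rfl fun p _ => ?_
    ring
  rw [Finset.sum_congr rfl (fun s _ => e5 s), ← Finset.mul_sum, ← mul_assoc, hdet, one_mul]

theorem g_PF5 (_hPF2 : G_PF2) : G_PF5 := by
  intro m hm
  refine ⟨(Nat.factorial (2 * m + 1) : ℝ) ^ 2 * (1 + m * 9 ^ (m - 1)), by positivity, ?_⟩
  intro R ν hν
  have hfac : (0 : ℝ) ≤ (Nat.factorial (2 * m + 1) : ℝ) ^ 2 := by positivity
  refine ⟨?_, fun κ => pf5_value ν hν κ, ?_, fun O hO => pf5_rot R ν O hO⟩
  · intro M hM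
    have hM0 : 0 ≤ M := (abs_nonneg _).trans (hM 0 0 0 0)
    have h1 := pf5_alt_abs_le (fun s p => pf5_T R ν s p) (M ^ m) (fun s p => by
      unfold pf5_T
      rw [abs_mul, abs_mul]
      have a1 := pf5_nu_abs ν hν (s 0)
      have a2 := pf5_nu_abs ν hν (p 0)
      have a3 := pf5_prod_abs (univ : Finset (Fin m))
        (fun j => R (s (pe j)) (s (po j)) (p (pe j)) (p (po j))) M (fun j => hM _ _ _ _)
      rw [Finset.card_univ, Fintype.card_fin] at a3
      have a4 : |ν (s 0)| * |ν (p 0)| ≤ 1 := mul_le_one₀ a1 (abs_nonneg _) a2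
      calc |ν (s 0)| * |ν (p 0)| * |∏ j : Fin m, R (s (pe j)) (s (po j)) (p (pe j)) (p (po j))|
          ≤ 1 * M ^ m := mul_le_mul a4 a3 (abs_nonneg _) zero_le_one
        _ = M ^ m := one_mul _)
    have h2 : |pft R ν| ≤ (Nat.factorial (2 * m + 1) : ℝ) ^ 2 * M ^ m := h1
    refine h2.trans ?_
    have h3 : (0 : ℝ) ≤ (m : ℝ) * 9 ^ (m - 1) := by positivity
    have h4 : (0 : ℝ) ≤ M ^ m := by positivity
    have h5 : (Nat.factorial (2 * m + 1) : ℝ) ^ 2 ≤
        (Nat.factorial (2 * m + 1) : ℝ) ^ 2 * (1 + m * 9 ^ (m - 1)) := by nlinarith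
    exact mul_le_mul_of_nonneg_right h5 h4
  · intro κ e he heκ hR
    have hκ : 0 ≤ κ := he.trans heκ
    have hI := pf5_value ν hν κ
    set J := κ • wdg (Pm ν) (Pm ν) with hJ
    have hb : ∀ a b c d, |J a b c d| ≤ 9 * κ := fun a b c d =>
      (pf5_wdg_abs ν hν κ hκ a b c d).trans (by linarith)
    have ha : ∀ a b c d, |R a b c d| ≤ 9 * κ := by
      intro a b c d
      have h1 := pf5_wdg_abs ν hν κ hκ a b c d
      have h2 := hR a b c d
      have h3 : R a b c d = (R a b c d - J a b c d) + J a b c d := by ring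
      rw [h3]
      exact (abs_add_le _ _).trans (by linarith)
    have h1 : |alt (fun s p => pf5_T R ν s p) - alt (fun s p => pf5_T J ν s p)| ≤
        (Nat.factorial (2 * m + 1) : ℝ) ^ 2 * (m * e * (9 * κ) ^ (m - 1)) := by
      rw [pf5_alt_sub]
      refine pf5_alt_abs_le _ _ fun s p => ?_
      unfold pf5_T
      rw [← mul_sub, abs_mul, abs_mul]
      have a1 := pf5_nu_abs ν hν (s 0)
      have a2 := pf5_nu_abs ν hν (p 0)
      have a3 := pf5_telescope (univ : Finset (Fin m))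
        (fun j => R (s (pe j)) (s (po j)) (p (pe j)) (p (po j)))
        (fun j => J (s (pe j)) (s (po j)) (p (pe j)) (p (po j))) (9 * κ) e
        (fun j => ha _ _ _ _) (fun j => hb _ _ _ _) (fun j => hR _ _ _ _)
      rw [Finset.card_univ, Fintype.card_fin] at a3
      have a4 : |ν (s 0)| * |ν (p 0)| ≤ 1 := mul_le_one₀ a1 (abs_nonneg _) a2
      calc |ν (s 0)| * |ν (p 0)| * |∏ j : Fin m, R (s (pe j)) (s (po j)) (p (pe j)) (p (po j)) -
            ∏ j : Fin m, J (s (pe j)) (s (po j)) (p (pe j)) (p (po j))|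
          ≤ 1 * (m * e * (9 * κ) ^ (m - 1)) := mul_le_mul a4 a3 (abs_nonneg _) zero_le_one
        _ = m * e * (9 * κ) ^ (m - 1) := one_mul _
    have h2 : |pft R ν - pft J ν| ≤
        (Nat.factorial (2 * m + 1) : ℝ) ^ 2 * (m * e * (9 * κ) ^ (m - 1)) := h1
    rw [← hI]
    have h3 := (abs_le.1 h2).1
    have h4 : (Nat.factorial (2 * m + 1) : ℝ) ^ 2 * (m * e * (9 * κ) ^ (m - 1)) ≤
        (Nat.factorial (2 * m + 1) : ℝ) ^ 2 * (1 + m * 9 ^ (m - 1)) * e * κ ^ (m - 1) := by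
      rw [mul_pow]
      have h5 : (0 : ℝ) ≤ (Nat.factorial (2 * m + 1) : ℝ) ^ 2 * e * κ ^ (m - 1) := by positivity
      nlinarith
    linarith

end Pool.Agent.Helper47.FLG
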